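import Pool.Agent.Lib_helper86.D24.Asm

/-!
# MP_4cc1da_an: `D(2,4) = 5`

The greatest degree of a smooth CR map `S³ → S⁷` is `5`: there is none of degree `6` (or more), and
degree `5` is attained.
-/

namespace Pool.Agent.Results.MP_4cc1da_an.DegreeTwoFour

open Pool.Agent.Lib_helper49.Dang

theorem result : IsGreatest (degrees 2 4) 5 :=
  Pool.Agent.Lib_helper86.D24.isGreatest_two_four

end Pool.Agent.Results.MP_4cc1da_an.DegreeTwoFour
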