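import Pool.Agent.Lib_helper49.Mac.AsmF

/-!
# MP_4cc1da_an: the exact maximal degree of smooth CR maps between spheres in an exponential
range of dimensions

The greatest degree of a smooth CR map `S^(2n-1) → S^(2N-1)` is `⌊(N-1)/(n-1)⌋` whenever
`N ≤ n (n-1)`, or `n ≥ 5` and `N ≤ (n+2 choose 4)`, or `N ≤ (n+j+1 choose j+3)` for some `j`
with `32 j ≤ n`; in particular for all `N ≤ 2^⌊n/8⌋`.
-/

namespace Pool.Agent.Results.MP_4cc1da_an.ExactRange

open Pool.Agent.Lib_helper49.Dang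

theorem result (n N : ℕ) (hn : 2 ≤ n) (hN : 1 ≤ N)
    (h : N ≤ n * (n - 1) ∨ (5 ≤ n ∧ N ≤ (n + 2).choose 4) ∨ N ≤ 2 ^ (n / 8) ∨
      ∃ j, 32 * j ≤ n ∧ N ≤ (n + j + 1).choose (j + 3)) :
    IsGreatest (degrees n N) ((N - 1) / (n - 1)) := by
  rcases h with h | ⟨h5, h⟩ | h | ⟨j, hj, h⟩
  · exact degree_exact hn hN h
  · exact Pool.Agent.Lib_helper49.Mac.exact_P5 h5 hN h
  · exact Pool.Agent.Lib_helper49.Mac.exact_exp hn hN h
  · exact Pool.Agent.Lib_helper49.Mac.exact_P hn hN hj h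

end Pool.Agent.Results.MP_4cc1da_an.ExactRange
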