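import Pool.Agent.Lib_helper49.Mac.AsmA

/-!
# MP_4cc1da_an: two-sided bounds for the maximal degree of smooth CR maps between spheres

Let `T = ⌊(N-1)/(n-1)⌋`. There is a smooth CR map `S^(2n-1) → S^(2N-1)` of degree `T`, and
every such map has degree at most `(1 + s/n) T` for every `s` with `T ≤ (n+s-1 choose s)`.
-/

namespace Pool.Agent.Results.MP_4cc1da_an.MacaulayBound

open Pool.Agent.Lib_helper49.Dang

theorem result (n N : ℕ) (hn : 2 ≤ n) (hN : 1 ≤ N) :
    (N - 1) / (n - 1) ∈ degrees n N ∧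
      ∀ s, (N - 1) / (n - 1) ≤ (n + s - 1).choose s →
        ∀ d ∈ degrees n N, n * d ≤ (n + s) * ((N - 1) / (n - 1)) :=
  ⟨(degree_growth hn hN).1, fun s hs d hd =>
    Pool.Agent.Lib_helper49.Mac.degree_upper hn s hs d hd⟩

end Pool.Agent.Results.MP_4cc1da_an.MacaulayBound
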